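import Pool.Agent.W2helper26.DL.Up
import Pool.Agent.W2helper26.DL.Thr
import Pool.Agent.W2helper19.DL.Grow
import Pool.Agent.W2helper93.DL.Sim

/-!
# Polynomial time, polylogarithmic space, and languages with few words: the threshold

Let `s` be a function on the natural numbers. Suppose that the languages of `P` (even of `PSPACE`)
with at most `s n` words of each length `n` are in logarithmic space. Does it follow, by a relativizing
argument, that `P` is contained in `SPACE((log n)^k)`?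

* If `s n ≥ 2 ^ 2 ^ (δ (log₂ n) ^ (1 / k))` for some `δ > 0`, then yes, relative to every oracle: a
  language of `P` is padded with zeros, and a register machine for the padded language is simulated
  on the word itself. The same holds for `NP`.
* If `s n ≤ 2 ^ 2 ^ (δ (log₂ n) ^ (1 / k))` for every `δ > 0`, then no: for many oracles all the
  languages of `PSPACE` with at most `s n` words of each length are in logarithmic space, and
  some language of `P` is not even in nondeterministic `SPACE((log n)^k)` with polynomial advice. The oracle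
  is a random one into which the languages of `PSPACE` are coded, but at each length only if there
  are at most `s n` words to be coded. So the coded part of the first `N` bits takes few
  values, and for each fixed value the hard language is computed correctly with a probability
  which is so small that the union bound over all the values works.

For polylogarithmic space the threshold is `2 ^ 2 ^ ((log₂ n) ^ ε)`.
-/

set_option autoImplicit false

namespace Pool.Agent.Results.MP_807b32_lc.DensityThreshold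

open Filter Pool.Agent.H620R2.Gauge Pool.Agent.W2helper86.PL Pool.Agent.W2helper26.DL
open Pool.Agent.W2helper26.DT (census)

/-- `s n ≤ 2 ^ 2 ^ (o((log₂ n) ^ (1 / k)))` -/
def Small (s : ℕ → ℕ) (k : ℕ) : Prop := ∀ δ : ℝ, 0 < δ → ∀ᶠ n : ℕ in atTop,
  (s n : ℝ) ≤ 2 ^ ((2 : ℝ) ^ (δ * Real.logb 2 n ^ (1 / (k : ℝ))))

/-- `s n ≥ 2 ^ 2 ^ (δ (log₂ n) ^ (1 / k))` for some `δ > 0` and almost all `n` -/
def Large (s : ℕ → ℕ) (k : ℕ) : Prop := ∃ δ : ℝ, 0 < δ ∧ ∀ᶠ n : ℕ in atTop,
  2 ^ ((2 : ℝ) ^ (δ * Real.logb 2 n ^ (1 / (k : ℝ)))) ≤ (s n : ℝ)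

/-- the oracles relative to which the part of each language of `PSPACE` on the lengths `n` where it
has at most `s n` words, is in logarithmic space; in particular the languages of `PSPACE` with at
most `s n` words of each length `n` are in logarithmic space -/
def SparseInL (s : ℕ → ℕ) : Set Oracle :=
  {A | ∀ L, IsPSPACE A L → IsDSpace A 1 {x | x ∈ L ∧ census L x.length ≤ s x.length}}

theorem result (s : ℕ → ℕ) :
    -- 1. space `(log n) ^ k`: the threshold
    (∀ k : ℕ, 1 ≤ k → Small s k → ∃ A ∈ SparseInL s, ∃ L, IsP A L ∧ ¬ IsNSpacePoly A k L) ∧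
    (∀ k : ℕ, 1 ≤ k → Large s k → ∀ A : Oracle,
      ((∀ L, IsP A L → (∀ n, census L n ≤ s n) → IsDSpace A 1 L) →
        ∀ L, IsP A L → IsDSpace A k L) ∧
      ((∀ L, IsNP A L → (∀ n, census L n ≤ s n) → IsDSpace A 1 L) →
        ∀ L, IsNP A L → IsDSpace A k L)) ∧
    -- 2. polylogarithmic space
    ((∀ ε : ℝ, 0 < ε → ∀ᶠ n : ℕ in atTop, (s n : ℝ) ≤ 2 ^ ((2 : ℝ) ^ (Real.logb 2 n ^ ε))) →
      ∃ A ∈ SparseInL s, ∃ L, IsP A L ∧ ∀ k, ¬ IsNSpacePoly A k L) ∧
    (∀ ε : ℝ, 0 < ε → (∀ᶠ n : ℕ in atTop, 2 ^ ((2 : ℝ) ^ (Real.logb 2 n ^ ε)) ≤ (s n : ℝ)) →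
      ∃ k : ℕ, ∀ A : Oracle,
        ((∀ L, IsP A L → (∀ n, census L n ≤ s n) → IsDSpace A 1 L) →
          ∀ L, IsP A L → IsDSpace A k L) ∧
        ((∀ L, IsNP A L → (∀ n, census L n ≤ s n) → IsDSpace A 1 L) →
          ∀ L, IsNP A L → IsDSpace A k L)) ∧
    -- 3. there are many such oracles
    (∀ (f : ℕ → ℝ) (ε : ℝ), 0 < ε → (∀ᶠ N : ℕ in atTop, 2 ^ (Real.logb 2 N) ^ ε < f N) →
      ¬ Null f {A | A ∈ SparseInL s ∧ ∃ L, IsP A L ∧
        ∀ k : ℕ, 1 ≤ k → Small s k → ¬ IsNSpacePoly A k L}) := by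
  have h3 : ∀ (f : ℕ → ℝ) (ε : ℝ), 0 < ε →
      (∀ᶠ N : ℕ in atTop, 2 ^ (Real.logb 2 N) ^ ε < f N) →
      ¬ Null f {A | A ∈ SparseInL s ∧ ∃ L, IsP A L ∧
        ∀ k : ℕ, 1 ≤ k → Small s k → ¬ IsNSpacePoly A k L} := by
    intro f ε hε hf hN
    refine not_null_far s f (fun hcon => ?_) fun δ hδ => ?_
    · have h1 := (hcon ε hε).and_eventually (hf.and
        (tendsto_logb.eventually (eventually_ge_atTop 1)))
      obtain ⟨N, h2, h3, h4⟩ := h1.exists
      have h5 : (2 : ℝ) ^ (ε * Real.logb 2 (Real.logb 2 N) ^ (1 / ((1 : ℕ) : ℝ))) =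
          Real.logb 2 N ^ ε := by
        rw [Nat.cast_one, div_one, Real.rpow_one, mul_comm, Real.rpow_mul (by norm_num),
          Real.rpow_logb (by norm_num) (by norm_num) (by linarith)]
      rw [h5] at h2
      linarith
    · obtain ⟨S, h1, h2⟩ := hN δ hδ
      refine ⟨S, ?_, h2⟩
      rintro A ⟨h3, h4⟩
      exact h1 A ⟨h3, hard A, p_hard A, fun k hk hs =>
        h4 k hk (Pool.Agent.W2helper19.DL.p_grow k hk s hs)⟩
  have hex : ∃ A ∈ SparseInL s, ∃ L, IsP A L ∧
      ∀ k : ℕ, 1 ≤ k → Small s k → ¬ IsNSpacePoly A k L := by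
    by_contra hne
    push Not at hne
    refine h3 (fun N => 2 ^ (Real.logb 2 N) ^ (1 : ℝ) + 1) 1 one_pos
      (Eventually.of_forall fun N => by linarith) fun δ hδ => ?_
    refine ⟨∅, ?_, by simp⟩
    rintro A ⟨h4, L, h5, h6⟩
    obtain ⟨k, h7, h8, h9⟩ := hne A h4 L h5
    exact absurd h9 (h6 k h7 h8)
  have hup : ∀ k : ℕ, 1 ≤ k → Large s k → ∀ A : Oracle,
      ((∀ L, IsP A L → (∀ n, census L n ≤ s n) → IsDSpace A 1 L) →
        ∀ L, IsP A L → IsDSpace A k L) ∧
      ((∀ L, IsNP A L → (∀ n, census L n ≤ s n) → IsDSpace A 1 L) →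
        ∀ L, IsNP A L → IsDSpace A k L) := by
    rintro k hk ⟨δ, hδ, hs⟩ A
    exact ⟨fun hA L hL => up_of_sim Pool.Agent.W2helper93.DL.p_sim hk hδ hs (IsP A)
        (fun D L hL => Pool.Agent.W2helper17.DL.p_padP k D A L hL) hA hL,
      fun hA L hL => up_of_sim Pool.Agent.W2helper93.DL.p_sim hk hδ hs (IsNP A)
        (fun D L hL => isNP_padL k D hL) hA hL⟩
  refine ⟨fun k hk hs => ?_, hup, fun hs => ?_, fun ε hε hs => ?_, h3⟩
  · obtain ⟨A, h1, L, h2, h4⟩ := hex
    exact ⟨A, h1, L, h2, h4 k hk hs⟩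
  · obtain ⟨A, h1, L, h2, h4⟩ := hex
    have h5 : ∀ k : ℕ, ¬ IsNSpacePoly A (k + 1) L := fun k =>
      h4 (k + 1) (by omega) fun δ hδ => cond_all hs (by omega) δ hδ
    refine ⟨A, h1, L, h2, fun k hk => ?_⟩
    cases k with
    | zero => exact h5 0 hk.succ
    | succ k => exact h5 k hk
  · obtain ⟨k, hk, h1⟩ := cond_some hε hs
    exact ⟨k, hup k hk ⟨1, one_pos, h1⟩⟩

end Pool.Agent.Results.MP_807b32_lc.DensityThreshold
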