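import Pool.Agent.W2lead.DepthMain
import Pool.Agent.W2lead.DepthUpper

/-!
# Polylogarithmic depth with few negated inputs per accepted instance

For every `k` an explicit function with monotone circuits of linear size is not computed by circuits
of depth `(log n) ^ k` in negation normal form in which every yes-instance can be accepted with fewer
than `n / (log n) ^ (8 k + 1)` negated inputs, not even with randomisation and success probability
`2 ^ (-2 (log n) ^ k)`.
-/

namespace Pool.Agent.Results.MP_807b32_lc.FewNegatedInputs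

open Finset Pool.Agent.W2lead.Depth

/-- the height of the pyramids in the instances with `n` bits -/
def height (k n : ℕ) : ℕ := 2 * (Nat.log 2 n) ^ k

/-- the number of pyramids in the instances with `n` bits: as many as fit -/
noncomputable def blocks (k n : ℕ) : ℕ := n / Nat.card (Var (height k n) (vals (height k n)))

lemma card_var_le (h : ℕ) : Nat.card (Var h (vals h)) ≤ 72 * (h + 1) ^ 8 := by
  rw [card_var]
  unfold vals
  obtain ⟨H, hH⟩ : ∃ H, H = h + 1 := ⟨_, rfl⟩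
  have hh : h ≤ H := by omega
  have h1 : 1 ≤ H := by omega
  rw [← hH]
  have e1 : H * (4 * H ^ 2) ≤ 4 * H ^ 8 := by
    calc H * (4 * H ^ 2) = 4 * H ^ 3 := by ring
      _ ≤ 4 * H ^ 8 := Nat.mul_le_mul_left 4 (Nat.pow_le_pow_right h1 (by norm_num))
  have e2 : h * h * (4 * H ^ 2 * (4 * H ^ 2) * (4 * H ^ 2)) ≤ 64 * H ^ 8 := by
    calc h * h * (4 * H ^ 2 * (4 * H ^ 2) * (4 * H ^ 2))
        ≤ H * H * (4 * H ^ 2 * (4 * H ^ 2) * (4 * H ^ 2)) :=
          Nat.mul_le_mul_right _ (Nat.mul_le_mul hh hh)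
      _ = 64 * H ^ 8 := by ring
  have e3 : 4 * H ^ 2 ≤ 4 * H ^ 8 :=
    Nat.mul_le_mul_left 4 (Nat.pow_le_pow_right h1 (by norm_num))
  omega

open Classical in
theorem result (k : ℕ) (hk : 1 ≤ k) : ∃ n₀ : ℕ, ∀ n ≥ n₀,
    n / (Nat.log 2 n) ^ (8 * k + 1) ≤ blocks k n ∧
    Nat.card (Bits (blocks k n) (height k n)) ≤ n ∧
    (∃ s ≤ 4 * n, ∃ G, MonCircuit s G ∧
      (fun x : Bits (blocks k n) (height k n) → Bool =>
        decide (AllTops (blocks k n) (height k n) x)) ∈ G) ∧
    ∀ (R : Type) [Fintype R] [Nonempty R] (C : R → NNF (Bits (blocks k n) (height k n))),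
      (∀ ρ, (C ρ).depth ≤ (Nat.log 2 n) ^ k) →
      (∀ ρ x, (C ρ).Accepts x → AllTops (blocks k n) (height k n) x) →
      ∀ t < blocks k n, ∃ x, AllTops (blocks k n) (height k n) x ∧
        ((univ.filter (fun ρ => (C ρ).AcceptsWith t x)).card : ℝ) ≤
          Fintype.card R / 2 ^ (2 * (Nat.log 2 n) ^ k) := by
  obtain ⟨N, hN⟩ : ∃ N : ℕ, N = 472392 := ⟨_, rfl⟩
  refine ⟨2 ^ N, fun n hn => ?_⟩
  have hL : 472392 ≤ Nat.log 2 n := by
    rw [← hN]
    exact Nat.le_log_of_pow_le (by norm_num) hn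
  have hn2 : n < 2 ^ (Nat.log 2 n + 1) := Nat.lt_pow_succ_log_self (by norm_num) n
  obtain ⟨L, hLn⟩ : ∃ L, L = Nat.log 2 n := ⟨_, rfl⟩
  rw [← hLn] at hL hn2
  have hL1 : 1 ≤ L := by omega
  have hLk : L ≤ L ^ k := Nat.le_self_pow (by omega) L
  have hht : height k n = 2 * L ^ k := by rw [height, hLn]
  have hV : Nat.card (Var (height k n) (vals (height k n))) ≤ L ^ (8 * k + 1) := by
    refine (card_var_le _).trans ?_
    rw [hht]
    calc 72 * (2 * L ^ k + 1) ^ 8 ≤ 72 * (3 * L ^ k) ^ 8 :=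
          Nat.mul_le_mul_left _ (Nat.pow_le_pow_left (by omega) 8)
      _ = 472392 * L ^ (8 * k) := by
          rw [mul_pow, ← pow_mul, mul_comm k 8]
          ring
      _ ≤ L * L ^ (8 * k) := Nat.mul_le_mul_right _ hL
      _ = L ^ (8 * k + 1) := by ring
  have hV0 : 0 < Nat.card (Var (height k n) (vals (height k n))) := by
    have hv : 0 < vals (height k n) := by unfold vals; positivity
    rw [card_var]
    omega
  have hcard : Nat.card (Bits (blocks k n) (height k n)) ≤ n := by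
    rw [Nat.card_prod, Nat.card_fin]
    exact Nat.div_mul_le_self _ _
  have hbn : blocks k n ≤ n := Nat.div_le_self _ _
  refine ⟨?_, hcard, ?_, ?_⟩
  · rw [← hLn]
    exact Nat.div_le_div_left hV hV0
  · obtain ⟨s, hs, G, hG, hf⟩ := upper (blocks k n) (height k n)
    exact ⟨s, hs.trans (Nat.mul_le_mul_left 4 hcard), G, hG, hf⟩
  · intro R _ _ C hD hC t ht
    rw [← hLn] at hD ⊢
    by_contra hcon
    push Not at hcon
    have hr : 0 < blocks k n := by omega
    have hmain := main_ineq (height k n) (blocks k n) t (L ^ k) hr ((2 : ℝ) ^ (2 * L ^ k))⁻¹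
      (by positivity) R C hD (fun ρ x hx hacc => hx (hC ρ x hacc)) (by
        intro x
        have := hcon (inp x) (inp_top x)
        rw [div_eq_inv_mul] at this
        exact this.le)
    rw [hht] at hmain
    have hr0 : (0 : ℝ) < blocks k n := by exact_mod_cast hr
    have htr : 1 / (blocks k n : ℝ) ≤ 1 - (t : ℝ) / blocks k n := by
      rw [div_le_iff₀ hr0, sub_mul, div_mul_cancel₀ _ hr0.ne', one_mul]
      have : (t : ℝ) + 1 ≤ blocks k n := by exact_mod_cast ht
      linarith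
    have hr2 : (blocks k n : ℝ) ≤ 2 ^ (L ^ k + 1) := by
      calc (blocks k n : ℝ) ≤ (n : ℝ) := by exact_mod_cast hbn
        _ ≤ 2 ^ (L + 1) := by exact_mod_cast hn2.le
        _ ≤ 2 ^ (L ^ k + 1) := pow_le_pow_right₀ (by norm_num) (by omega)
    have htr2 : ((2 : ℝ) ^ (L ^ k + 1))⁻¹ ≤ 1 - (t : ℝ) / blocks k n := by
      refine le_trans ?_ htr
      rw [one_div]
      exact inv_anti₀ hr0 hr2
    have h4 : (1 : ℝ) ≤ (((2 * L ^ k : ℕ) : ℝ) + 1) ^ 2 := by
      apply one_le_pow₀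
      have : (0 : ℝ) ≤ ((2 * L ^ k : ℕ) : ℝ) := Nat.cast_nonneg _
      linarith
    have h5 : (4 : ℝ) ^ (2 * L ^ k + 1) = 2 ^ (L ^ k) * (2 ^ (2 * L ^ k) * 2 ^ (L ^ k + 1)) * 2 := by
      rw [show (4 : ℝ) = 2 ^ 2 by norm_num, ← pow_mul, ← pow_add, ← pow_add, ← pow_succ]
      congr 1
      ring
    have h6 : (2 : ℝ) ^ (L ^ k) * 2 ≤ 2 ^ (L ^ k) := by
      calc (2 : ℝ) ^ (L ^ k) * 2
          = ((2 : ℝ) ^ (2 * L ^ k))⁻¹ * ((2 : ℝ) ^ (L ^ k + 1))⁻¹ *
            (4 ^ (2 * L ^ k + 1) * 1) := by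
            rw [h5]
            field_simp
        _ ≤ ((2 : ℝ) ^ (2 * L ^ k))⁻¹ * (1 - (t : ℝ) / blocks k n) *
            (4 ^ (2 * L ^ k + 1) * (((2 * L ^ k : ℕ) : ℝ) + 1) ^ 2) := by
            exact mul_le_mul (mul_le_mul_of_nonneg_left htr2 (by positivity))
              (mul_le_mul_of_nonneg_left h4 (by positivity)) (by positivity)
              (mul_nonneg (by positivity) (le_trans (by positivity) htr2))
        _ ≤ 2 ^ (L ^ k) := hmain
    have h7 : (0 : ℝ) < 2 ^ (L ^ k) := by positivity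
    linarith

end Pool.Agent.Results.MP_807b32_lc.FewNegatedInputs
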