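import Pool.Agent.W2helper86.PL.Cor

/-!
# Polynomial time in polylogarithmic space, relative to oracles: the exact gauge

For how many oracles `A` is `P^A` (or `NP^A`) contained in `DSPACE^A(log^k)` or `NSPACE^A(log^k)`?
We determine, for every `k ≥ 1`, exactly for which gauges `f : ℕ → ℝ` these sets of oracles are
null sets (`Null f`; `f = 0`: measure zero; `f n = (1 - s) n`: `s`-dimensional Hausdorff measure
zero): if and only if for each `δ > 0` there are infinitely many `N` with
`f N ≤ 2^(2^(δ (log₂ log₂ N)^(1/k)))`. The same holds for all sets of oracles in between `P^A` in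
`NSPACE^A(log^k)` with polynomial advice and `PSPACE^A` in `DSPACE^A(log^k)`. For polylogarithmic
space the condition is `f N ≤ 2^(2^((log₂ log₂ N)^ε))` infinitely often, for each `ε > 0`.

* One direction: the language `{z : A(F^A(z)) = 1}`, where `F^A(z)` is a string of `|z|` bits of
  `A` at places that are determined by `z`, is in `P^A`. The questions of a machine with little
  space are determined by the state after the last question, so there are few possible
  questions, independently of `A`, and the machine must guess.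
* The other direction: the answer of the machine number `e` on input `x` is stored at a string of
  length at least `2^(C (log |x|)^k)`; the number of such strings among the first `N` strings is
  below `f N`, so the oracles of this kind are too many for a null set. A machine in
  `DSPACE(log^k)` can write the string.
-/

set_option autoImplicit false

namespace Pool.Agent.Results.MP_807b32_lc.GaugeOfPolylogSpace

open Pool.Agent.H620R2.Gauge Pool.Agent.W2helper86.PL

theorem result :
    -- space `O((log n)^k)` for a fixed `k`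
    (∀ (f : ℕ → ℝ) (k : ℕ), 1 ≤ k →
      (∀ O : Set Oracle,
        (∀ A : Oracle, (∀ L, IsPSPACE A L → IsDSpace A k L) → A ∈ O) →
        (∀ A ∈ O, ∀ L, IsP A L → IsNSpacePoly A k L) →
        (Null f O ↔ CondK f k)) ∧
      (Null f {A | ∀ L, IsP A L → IsDSpace A k L} ↔ CondK f k) ∧
      (Null f {A | ∀ L, IsP A L → IsNSpace A k L} ↔ CondK f k) ∧
      (Null f {A | ∀ L, IsNP A L → IsDSpace A k L} ↔ CondK f k) ∧
      (Null f {A | ∀ L, IsNP A L → IsNSpace A k L} ↔ CondK f k)) ∧
    -- polylogarithmic space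
    (∀ f : ℕ → ℝ,
      (∀ O : Set Oracle,
        (∀ (A : Oracle) (k : ℕ), (∀ L, IsPSPACE A L → IsDSpace A k L) → A ∈ O) →
        (∀ A ∈ O, ∀ L, IsP A L → ∃ k, IsNSpacePoly A k L) →
        (Null f O ↔ CondPoly f)) ∧
      (Null f {A | ∃ k, ∀ L, IsP A L → IsDSpace A k L} ↔ CondPoly f) ∧
      (Null f {A | ∃ k, ∀ L, IsP A L → IsNSpace A k L} ↔ CondPoly f) ∧
      (Null f {A | ∃ k, ∀ L, IsNP A L → IsDSpace A k L} ↔ CondPoly f) ∧
      (Null f {A | ∃ k, ∀ L, IsNP A L → IsNSpace A k L} ↔ CondPoly f)) ∧
    -- the exponent matters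
    (∀ k : ℕ, 1 ≤ k → ∃ A : Oracle,
      (∀ L, IsPSPACE A L → IsDSpace A (k + 1) L) ∧ ∃ L, IsP A L ∧ ¬ IsNSpacePoly A k L) := by
  refine ⟨fun f k hk => ⟨fun O => p_main k hk f O, ?_, ?_, ?_, ?_⟩,
    fun f => ⟨fun O => p_main' f O, ?_, ?_, ?_, ?_⟩, fun k hk => exists_sep hk⟩
  · exact p_main k hk f _ (fun A h L hL => h L hL.isPSPACE)
      (fun A h L hL => (h L hL).isNSpace.isNSpacePoly)
  · exact p_main k hk f _ (fun A h L hL => (h L hL.isPSPACE).isNSpace)
      (fun A h L hL => (h L hL).isNSpacePoly)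
  · exact p_main k hk f _ (fun A h L hL => h L (isPSPACE_of_isNP hL))
      (fun A h L hL => (h L (isNP_of_isP hL)).isNSpace.isNSpacePoly)
  · exact p_main k hk f _ (fun A h L hL => (h L (isPSPACE_of_isNP hL)).isNSpace)
      (fun A h L hL => (h L (isNP_of_isP hL)).isNSpacePoly)
  · exact p_main' f _ (fun A k h => ⟨k, fun L hL => h L hL.isPSPACE⟩)
      (fun A ⟨k, h⟩ L hL => ⟨k, (h L hL).isNSpace.isNSpacePoly⟩)
  · exact p_main' f _ (fun A k h => ⟨k, fun L hL => (h L hL.isPSPACE).isNSpace⟩)
      (fun A ⟨k, h⟩ L hL => ⟨k, (h L hL).isNSpacePoly⟩)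
  · exact p_main' f _ (fun A k h => ⟨k, fun L hL => h L (isPSPACE_of_isNP hL)⟩)
      (fun A ⟨k, h⟩ L hL => ⟨k, (h L (isNP_of_isP hL)).isNSpace.isNSpacePoly⟩)
  · exact p_main' f _ (fun A k h => ⟨k, fun L hL => (h L (isPSPACE_of_isNP hL)).isNSpace⟩)
      (fun A ⟨k, h⟩ L hL => ⟨k, (h L (isNP_of_isP hL)).isNSpacePoly⟩)

end Pool.Agent.Results.MP_807b32_lc.GaugeOfPolylogSpace
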