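import Pool.Agent.W2helper22.AL.Pyr

/-!
# Functions with small monotone circuits, and shallow circuits with NOT gates that are not nested

`⌈log₂ (n + 1)⌉` NOT gates are as good as any number of NOT gates (Markov, Fischer), but only if they
are nested in each other. Here: for every depth `d ≥ log₂ n` there is an explicit function of `n` bits
with monotone circuits of size `4 n` such that circuits of depth `d` with `t` NOT gates, at most `h` of
them on each path, even randomised ones without false positives, need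
`(1 + t / h) ^ h ≥ (n / (72 (2 d + 1) ^ 8) - 1) p` to accept all yes-instances with probability `p`. For
`d = (log n) ^ k` these are `n / polylog n` NOT gates if they are not nested (`h = 1`). More generally
along some increasing chain of inputs the NOT gates must change `n / polylog n` times.
-/

set_option autoImplicit false

namespace Pool.Agent.Results.MP_807b32_lc.NegationNesting

open Finset Pool.Agent.W2helper76.RW Pool.Agent.W2lead.Depth
open Pool.Agent.W2helper22.AL (Alternates Nesting)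

/-- the number of pyramids of height `h` in the instances with `n` bits: as many as fit -/
noncomputable def blocks (n h : ℕ) : ℕ := n / Nat.card (Var h (vals h))

lemma card_var_le (h : ℕ) : Nat.card (Var h (vals h)) ≤ 72 * (h + 1) ^ 8 := by
  rw [card_var]
  unfold vals
  obtain ⟨H, hH⟩ : ∃ H, H = h + 1 := ⟨_, rfl⟩
  have hh : h ≤ H := by omega
  have h1 : 1 ≤ H := by omega
  rw [← hH]
  have e1 : H * (4 * H ^ 2) ≤ 4 * H ^ 8 := by
    calc H * (4 * H ^ 2) = 4 * H ^ 3 := by ring
      _ ≤ 4 * H ^ 8 := Nat.mul_le_mul_left 4 (Nat.pow_le_pow_right h1 (by norm_num))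
  have e2 : h * h * (4 * H ^ 2 * (4 * H ^ 2) * (4 * H ^ 2)) ≤ 64 * H ^ 8 := by
    calc h * h * (4 * H ^ 2 * (4 * H ^ 2) * (4 * H ^ 2))
        ≤ H * H * (4 * H ^ 2 * (4 * H ^ 2) * (4 * H ^ 2)) :=
          Nat.mul_le_mul_right _ (Nat.mul_le_mul hh hh)
      _ = 64 * H ^ 8 := by ring
  have e3 : 4 * H ^ 2 ≤ 4 * H ^ 8 :=
    Nat.mul_le_mul_left 4 (Nat.pow_le_pow_right h1 (by norm_num))
  omega

open Classical in
/-- Let `n < 2 ^ (d + 1)` and let `m = blocks n (2 d)`, so `m > n / (72 (2 d + 1) ^ 8) - 1`. The function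
`AllTops m (2 d)` of at most `n` bits has monotone circuits with at most `4 n` gates. Consider a random
circuit of depth at most `d` that never accepts a no-instance.
(1) If the circuits have less than `2 ^ (d + 1)` NOT gates, and at most `D` alternations, then some
yes-instance is accepted with probability at most `(D + 1) / m`.
(2) If they have at most `t` NOT gates, at most `h` of them on each path, then some yes-instance is
accepted with probability at most `(1 + t / h) ^ h / m`.
(3) A circuit with at most `t l` NOT gates of nesting level `l + 1` for all `l < h` has at most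
`∏ l, (t l + 1) - 1` alternations, and every circuit with `T` NOT gates has at most `2 ^ T - 1`. -/
theorem result (n d : ℕ) (hn : n < 2 ^ (d + 1)) :
    n < 72 * (2 * d + 1) ^ 8 * (blocks n (2 * d) + 1) ∧
    Nat.card (Bits (blocks n (2 * d)) (2 * d)) ≤ n ∧
    (∃ s ≤ 4 * n, ∃ G, MonCircuit s G ∧
      (fun x : Bits (blocks n (2 * d)) (2 * d) → Bool =>
        decide (AllTops (blocks n (2 * d)) (2 * d) x)) ∈ G) ∧
    (∀ (D : ℕ) (Ω : Type) [Fintype Ω] (p : Ω → ℝ) (C : Ω → Circuit (Bits (blocks n (2 * d)) (2 * d))),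
      (∀ ω, 0 ≤ p ω) → ∑ ω, p ω = 1 → (∀ ω, (C ω).numNot < 2 ^ (d + 1)) →
      (∀ ω, Alternates (C ω) D) → (∀ ω, (C ω).depth (C ω).out ≤ d) →
      (∀ ω x, (C ω).eval x = true → AllTops (blocks n (2 * d)) (2 * d) x) →
      ∃ x, AllTops (blocks n (2 * d)) (2 * d) x ∧ blocks n (2 * d) * accProb p C x ≤ D + 1) ∧
    (∀ (t h : ℕ) (_ : 1 ≤ h) (Ω : Type) [Fintype Ω] (p : Ω → ℝ)
      (C : Ω → Circuit (Bits (blocks n (2 * d)) (2 * d))),
      (∀ ω, 0 ≤ p ω) → ∑ ω, p ω = 1 → (∀ ω, (C ω).numNot ≤ t) →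
      (∀ ω, ∃ lev, Nesting (C ω) h lev) → (∀ ω, (C ω).depth (C ω).out ≤ d) →
      (∀ ω x, (C ω).eval x = true → AllTops (blocks n (2 * d)) (2 * d) x) →
      ∃ x, AllTops (blocks n (2 * d)) (2 * d) x ∧
        blocks n (2 * d) * accProb p C x ≤ (1 + (t : ℝ) / h) ^ h) ∧
    (∀ (I : Type) (C : Circuit I) (h : ℕ) (lev : Fin C.s → ℕ) (t : ℕ → ℕ), Nesting C h lev →
      (∀ l < h, (univ.filter (fun i => C.IsNot i ∧ lev i = l + 1)).card ≤ t l) →
      Alternates C (∏ l ∈ range h, (t l + 1) - 1)) ∧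
    ∀ (I : Type) (C : Circuit I), Alternates C (2 ^ C.numNot - 1) := by
  have hV0 : 0 < Nat.card (Var (2 * d) (vals (2 * d))) := by
    have hv : 0 < vals (2 * d) := by unfold vals; positivity
    rw [card_var]
    omega
  have hcard : Nat.card (Bits (blocks n (2 * d)) (2 * d)) ≤ n := by
    rw [Nat.card_prod, Nat.card_fin]
    exact Nat.div_mul_le_self _ _
  have hA : ∀ (D : ℕ) (Ω : Type) [Fintype Ω] (p : Ω → ℝ)
      (C : Ω → Circuit (Bits (blocks n (2 * d)) (2 * d))),
      (∀ ω, 0 ≤ p ω) → ∑ ω, p ω = 1 → (∀ ω, (C ω).numNot < 2 ^ (d + 1)) →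
      (∀ ω, Alternates (C ω) D) → (∀ ω, (C ω).depth (C ω).out ≤ d) →
      (∀ ω x, (C ω).eval x = true → AllTops (blocks n (2 * d)) (2 * d) x) →
      ∃ x, AllTops (blocks n (2 * d)) (2 * d) x ∧ blocks n (2 * d) * accProb p C x ≤ D + 1 := by
    intro D Ω _ p C hp hp1 ht halt hd hsound
    have h2 : 0 < 2 ^ (d + 1) := by positivity
    exact Pool.Agent.W2helper22.AL.pyr_boundD n d (2 * d) (blocks n (2 * d)) hn le_rfl
      (Nat.div_le_self _ _) (2 ^ (d + 1) - 1) D (by omega) Ω p C hp hp1
      (fun ω => Nat.le_sub_one_of_lt (ht ω)) halt hd hsound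
  refine ⟨?_, hcard, ?_, fun D Ω _ => hA D Ω, ?_,
    fun I => Pool.Agent.W2helper22.AL.alternates_of_nesting,
    fun I => Pool.Agent.W2helper22.AL.alternates_pow⟩
  · have h1 : n < Nat.card (Var (2 * d) (vals (2 * d))) * (blocks n (2 * d) + 1) :=
      Nat.lt_mul_div_succ n hV0
    exact lt_of_lt_of_le h1 (Nat.mul_le_mul_right _ (card_var_le (2 * d)))
  · obtain ⟨s, hs, G, hG, hf⟩ := upper (blocks n (2 * d)) (2 * d)
    exact ⟨s, hs.trans (Nat.mul_le_mul_left 4 hcard), G, hG, hf⟩
  · intro t h hh Ω _ p C hp hp1 ht hlev hd hsound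
    have hh0 : (0 : ℝ) < h := by exact_mod_cast hh
    rcases Nat.lt_or_ge t (2 ^ (d + 1)) with htd | htd
    · obtain ⟨x, hx, hacc⟩ := hA (⌊(1 + (t : ℝ) / h) ^ h⌋₊ - 1) Ω p C hp hp1
        (fun ω => lt_of_le_of_lt (ht ω) htd) (fun ω => by
          obtain ⟨lev, hl⟩ := hlev ω
          exact Pool.Agent.W2helper22.AL.alternates_total (C ω) hh lev hl (ht ω)) hd hsound
      refine ⟨x, hx, hacc.trans ?_⟩
      have h3 : (1 : ℝ) ≤ (1 + (t : ℝ) / h) ^ h := one_le_pow₀ (by
        have : (0 : ℝ) ≤ (t : ℝ) / h := by positivity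
        linarith)
      have h4 : 1 ≤ ⌊(1 + (t : ℝ) / h) ^ h⌋₊ := Nat.le_floor (by simpa using h3)
      have h6 : (((⌊(1 + (t : ℝ) / h) ^ h⌋₊ - 1 : ℕ) : ℝ) + 1) =
          ((⌊(1 + (t : ℝ) / h) ^ h⌋₊ : ℕ) : ℝ) := by
        rw [Nat.cast_sub h4]
        push_cast
        ring
      rw [h6]
      exact Nat.floor_le (by positivity)
    · refine ⟨fun _ => true, fun _ => top_true (2 * d), ?_⟩
      have h1 : accProb p C (fun _ => true) ≤ 1 := by
        unfold accProb
        rw [← hp1]
        apply Finset.sum_le_sum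
        intro ω _
        split_ifs
        · exact le_rfl
        · exact hp ω
      have h2 : ((blocks n (2 * d) : ℕ) : ℝ) ≤ t := by
        have : blocks n (2 * d) ≤ t := (Nat.div_le_self _ _).trans (hn.le.trans htd)
        exact_mod_cast this
      have h3 : 1 + (h : ℝ) * ((t : ℝ) / h) ≤ (1 + (t : ℝ) / h) ^ h :=
        one_add_mul_le_pow (by
          have : (0 : ℝ) ≤ (t : ℝ) / h := by positivity
          linarith) h
      have h4 : (h : ℝ) * ((t : ℝ) / h) = t := by field_simp
      have h5 : ((blocks n (2 * d) : ℕ) : ℝ) * accProb p C (fun _ => true) ≤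
          ((blocks n (2 * d) : ℕ) : ℝ) * 1 :=
        mul_le_mul_of_nonneg_left h1 (Nat.cast_nonneg _)
      linarith

end Pool.Agent.Results.MP_807b32_lc.NegationNesting
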